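import Pool.Agent.Helper61.AT.FSemi

/-!
PROJECT MP_19fde8_al (S00834), block A2, general part: the case of a complete group `H` (trivial centre, all
automorphisms inner): `Comp φ ≃* CentM φ × H`, where `CentM φ` are the automorphisms of `M` commuting with `H`;
`F (M ⋊ H) ≃* (InvX φ × Z1 φ) ⋊ (CentM φ × H)`.
-/

set_option autoImplicit false

namespace Pool.Agent.Helper61.AT

open QN43

section
variable {M H : Type*} [CommGroup M] [Group H]

/-- The automorphisms of `M` commuting with the action of `H`. -/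
def CentM (φ : H →* MulAut M) : Subgroup (MulAut M) where
  carrier := {g | ∀ h m, g (φ h m) = φ h (g m)}
  one_mem' := fun h m => by simp
  mul_mem' := fun {a b} ha hb h m => by
    simp only [MulAut.mul_apply]
    rw [hb, ha]
  inv_mem' := fun {g} hg h m => by
    have h1 := hg h (g⁻¹ m)
    rw [MulAut.apply_inv_self] at h1
    rw [← h1, MulAut.inv_apply_self]

theorem centM_comm {φ : H →* MulAut M} (g : CentM φ) (h : H) (m : M) : g.1 (φ h m) = φ h (g.1 m) := g.2 h m

/-- `(g, c) ↦ (g ∘ φ c, conj c)`. -/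
def cmap (φ : H →* MulAut M) : CentM φ × H →* Comp φ where
  toFun x := ⟨(x.1.1 * φ x.2, MulAut.conj x.2), fun h m => by
    simp only [MulAut.mul_apply, MulAut.conj_apply, map_mul, map_inv, centM_comm, MulAut.inv_apply_self]⟩
  map_one' := by
    ext : 1
    simp
  map_mul' x y := by
    ext : 1
    simp only [Subgroup.coe_mul, Prod.fst_mul, Prod.snd_mul, map_mul, Prod.mk_mul_mk]
    congr 1
    ext m
    simp only [MulAut.mul_apply, centM_comm]

@[simp] theorem cmap_fst (φ : H →* MulAut M) (x : CentM φ × H) (m : M) :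
    (cmap φ x).1.1 m = x.1.1 (φ x.2 m) := rfl

@[simp] theorem cmap_snd (φ : H →* MulAut M) (x : CentM φ × H) :
    (cmap φ x).1.2 = MulAut.conj x.2 := rfl

theorem cmap_injective (φ : H →* MulAut M) (hZ : Subgroup.center H = ⊥) : Function.Injective (cmap φ) := by
  rw [injective_iff_map_eq_one]
  intro x hx
  have h1 : MulAut.conj x.2 = 1 := congrArg (fun z : Comp φ => z.1.2) hx
  have h2 : x.2 = 1 := by
    have h3 : x.2 ∈ Subgroup.center H := by
      rw [Subgroup.mem_center_iff]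
      intro g
      have h4 := DFunLike.congr_fun h1 g
      rw [MulAut.conj_apply, MulAut.one_apply] at h4
      exact (mul_inv_eq_iff_eq_mul.mp h4).symm
    rw [hZ, Subgroup.mem_bot] at h3
    exact h3
  have h5 : x.1.1 * φ x.2 = 1 := congrArg (fun z : Comp φ => z.1.1) hx
  rw [h2, map_one, mul_one] at h5
  exact Prod.ext (Subtype.ext h5) h2

theorem cmap_surjective (φ : H →* MulAut M) (hI : ∀ α : MulAut H, ∃ c, α = MulAut.conj c) :
    Function.Surjective (cmap φ) := by
  intro p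
  obtain ⟨c, hc⟩ := hI p.1.2
  refine ⟨(⟨p.1.1 * (φ c)⁻¹, fun h m => ?_⟩, c), ?_⟩
  · have h1 : ∀ k m, p.1.1 (φ k m) = φ (c * k * c⁻¹) (p.1.1 m) := by
      intro k m
      rw [comp_comm p k m, hc, MulAut.conj_apply]
    have h2 : ∀ a b : H, ∀ m, φ a (φ b m) = φ (a * b) m := fun a b m => by
      rw [map_mul, MulAut.mul_apply]
    simp only [MulAut.mul_apply]
    rw [← map_inv, h2, h1, h1, h2]
    congr 2
    group
  · refine Subtype.ext (Prod.ext ?_ ?_)
    · show p.1.1 * (φ c)⁻¹ * φ c = p.1.1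
      rw [inv_mul_cancel_right]
    · exact hc.symm

/-- `CentM φ × H ≃* Comp φ` for a complete group `H`. -/
noncomputable def compEquiv (φ : H →* MulAut M) (hZ : Subgroup.center H = ⊥)
    (hI : ∀ α : MulAut H, ∃ c, α = MulAut.conj c) : CentM φ × H ≃* Comp φ :=
  MulEquiv.ofBijective (cmap φ) ⟨cmap_injective φ hZ, cmap_surjective φ hI⟩

@[simp] theorem compEquiv_apply (φ : H →* MulAut M) (hZ : Subgroup.center H = ⊥)
    (hI : ∀ α : MulAut H, ∃ c, α = MulAut.conj c) (x : CentM φ × H) : compEquiv φ hZ hI x = cmap φ x := rfl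

/-- A semidirect product with an isomorphic acting group. -/
theorem semi_congr_right {A G G' : Type*} [Group A] [Group G] [Group G'] (e : G' ≃* G) (ψ : G →* MulAut A) :
    Nonempty (A ⋊[ψ] G ≃* A ⋊[ψ.comp e.toMonoidHom] G') := by
  refine ⟨SemidirectProduct.congr (MulEquiv.refl A) e.symm ?_⟩
  intro g
  ext a
  simp

end

section
variable {M H : Type} [CommGroup M] [Group H]

/-- `F (M ⋊ H) ≃* (InvX φ × Z1 φ) ⋊ (CentM φ × H)` for a complete group `H` without characters to `C₂`; `(g, c)` acts by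
`χ ↦ χ ∘ (g φ_c)⁻¹` and `f ↦ (x ↦ g (φ_c (f (c⁻¹ x c))))`. -/
theorem F_complete (φ : H →* MulAut M) (hH : ∀ f : H →* C2, f = 1) (hZ : Subgroup.center H = ⊥)
    (hI : ∀ α : MulAut H, ∃ c, α = MulAut.conj c)
    (hchar : ∀ (θ : MulAut (M ⋊[φ] H)) (m : M), (θ (SemidirectProduct.inl m)).right = 1) :
    Nonempty (F (M ⋊[φ] H) ≃* ((InvX φ × Z1 φ) ⋊[(actXZ φ).comp (cmap φ)] (CentM φ × H))) := by
  obtain ⟨e1⟩ := F_semi φ hH hchar
  obtain ⟨e2⟩ := semi_congr_right (compEquiv φ hZ hI) (actXZ φ)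
  exact ⟨e1.trans e2⟩

theorem act_formula_X (φ : H →* MulAut M) (x : CentM φ × H) (y : InvX φ × Z1 φ) (m : M) :
    (((actXZ φ).comp (cmap φ)) x y).1.1 m = y.1.1 (x.1.1⁻¹ m) := by
  show y.1.1 ((x.1.1 * φ x.2)⁻¹ m) = y.1.1 (x.1.1⁻¹ m)
  rw [mul_inv_rev, MulAut.mul_apply, ← map_inv, invX_apply y.1]

theorem act_formula_Z (φ : H →* MulAut M) (x : CentM φ × H) (y : InvX φ × Z1 φ) (h : H) :
    (((actXZ φ).comp (cmap φ)) x y).2.1 h = x.1.1 (φ x.2 (y.2.1 (x.2⁻¹ * h * x.2))) := by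
  show (x.1.1 * φ x.2) (y.2.1 ((MulAut.conj x.2)⁻¹ h)) = _
  rw [MulAut.mul_apply, ← map_inv, MulAut.conj_apply, inv_inv]

end

end Pool.Agent.Helper61.AT
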