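import Pool.Agent.Helper61.AT.Prod

/-!
PROJECT MP_19fde8_al (S00834), block A0: the dihedral group of order 8 is isomorphic to its automorphism group;
`MulAut (D₈ × N) ≃* D₈ × F N`.
-/

set_option autoImplicit false

namespace Pool.Agent.Helper61.AT

open DihedralGroup

/-- The map underlying the automorphism attached to an element of `D₈`. -/
def dm : DihedralGroup 4 → DihedralGroup 4 → DihedralGroup 4
  | r _, r j => r j
  | r i, sr j => sr (j + i)
  | sr _, r j => r (-j)
  | sr i, sr j => sr (-i - j)

theorem dm_hom (g x y : DihedralGroup 4) : dm g (x * y) = dm g x * dm g y := by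
  rcases g with i | i <;> rcases x with a | a <;> rcases y with b | b <;>
    simp only [dm, r_mul_r, r_mul_sr, sr_mul_r, sr_mul_sr] <;> congr 1 <;> ring

theorem dm_mul (g h x : DihedralGroup 4) : dm (g * h) x = dm g (dm h x) := by
  rcases g with i | i <;> rcases h with a | a <;> rcases x with b | b <;>
    simp only [dm, r_mul_r, r_mul_sr, sr_mul_r, sr_mul_sr] <;> congr 1 <;> ring

theorem dm_one (x : DihedralGroup 4) : dm 1 x = x := by
  rw [one_def]
  rcases x with a | a
  · rfl
  · simp only [dm, add_zero]

/-- `D₈ →* MulAut D₈`. -/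
def da : DihedralGroup 4 →* MulAut (DihedralGroup 4) where
  toFun g :=
    { toFun := dm g
      invFun := dm g⁻¹
      left_inv := fun x => by rw [← dm_mul, inv_mul_cancel, dm_one]
      right_inv := fun x => by rw [← dm_mul, mul_inv_cancel, dm_one]
      map_mul' := dm_hom g }
  map_one' := by
    ext x : 1
    exact dm_one x
  map_mul' g h := by
    ext x : 1
    exact dm_mul g h x

theorem da_apply (g x : DihedralGroup 4) : da g x = dm g x := rfl

theorem da_injective : Function.Injective da := by
  rw [injective_iff_map_eq_one]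
  intro g hg
  have h1 : dm g (r 1) = r 1 := by rw [← da_apply, hg]; rfl
  have h2 : dm g (sr 0) = sr 0 := by rw [← da_apply, hg]; rfl
  rcases g with i | i
  · simp only [dm, zero_add, sr.injEq] at h2
    rw [h2, one_def]
  · exfalso
    simp only [dm, r.injEq] at h1
    revert h1
    decide

theorem da_surjective : Function.Surjective da := by
  intro θ
  -- image of `r 1`
  have hr : θ (r 1) = r 1 ∨ θ (r 1) = r (-1) := by
    rcases h : θ (r 1) with e | e
    · have h4 : ∀ e : ZMod 4, e = 1 ∨ e = -1 ∨ e + e = 0 := by decide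
      rcases h4 e with rfl | rfl | h5
      · left; rfl
      · right; rfl
      · exfalso
        have h6 : θ (r 1 * r 1) = θ 1 := by
          rw [map_mul, h, r_mul_r, h5, r_zero, map_one]
        have h7 := θ.injective h6
        rw [r_mul_r, one_def, r.injEq] at h7
        revert h7
        decide
    · exfalso
      have h6 : θ (r 1 * r 1) = θ 1 := by
        rw [map_mul, h, sr_mul_self, map_one]
      have h7 := θ.injective h6
      rw [r_mul_r, one_def, r.injEq] at h7
      revert h7
      decide
  obtain ⟨ε, hε, hε1⟩ : ∃ ε : ZMod 4, θ (r 1) = r ε ∧ (ε = 1 ∨ ε = -1) := by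
    rcases hr with h | h
    · exact ⟨1, h, Or.inl rfl⟩
    · exact ⟨-1, h, Or.inr rfl⟩
  have hra : ∀ a : ZMod 4, θ (r a) = r (ε * a) := by
    intro a
    have h1 : (r a : DihedralGroup 4) = (r 1) ^ a.val := by
      rw [r_one_pow]
      simp
    rw [h1, map_pow, hε, r_pow]
    simp
  obtain ⟨j, hj⟩ : ∃ j : ZMod 4, θ (sr 0) = sr j := by
    rcases h : θ (sr 0) with e | e
    · exfalso
      have h2 : θ (r (ε * e)) = θ (sr 0) := by
        rw [hra, h]
        congr 1
        rcases hε1 with rfl | rfl <;> ring
      have h3 := θ.injective h2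
      cases h3
    · exact ⟨e, rfl⟩
  have hsr : ∀ a : ZMod 4, θ (sr a) = sr (j + ε * a) := by
    intro a
    have h1 : (sr a : DihedralGroup 4) = sr 0 * r a := by
      rw [sr_mul_r, zero_add]
    rw [h1, map_mul, hj, hra, sr_mul_r]
  rcases hε1 with rfl | rfl
  · refine ⟨r j, ?_⟩
    ext x : 1
    rw [da_apply]
    rcases x with a | a
    · simp only [dm, hra, one_mul]
    · simp only [dm, hsr, one_mul]
      congr 1
      ring
  · refine ⟨sr (-j), ?_⟩
    ext x : 1
    rw [da_apply]
    rcases x with a | a
    · simp only [dm, hra]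
      congr 1
      ring
    · simp only [dm, hsr]
      congr 1
      ring

/-- `Aut D₈ ≅ D₈`. -/
noncomputable def dAut : DihedralGroup 4 ≃* MulAut (DihedralGroup 4) :=
  MulEquiv.ofBijective da ⟨da_injective, da_surjective⟩

/-- The centre of `D₈`. -/
def zeta : Multiplicative (ZMod 2) →* DihedralGroup 4 where
  toFun x := r (2 * (x.toAdd.val : ZMod 4))
  map_one' := by decide
  map_mul' := by decide

theorem zeta_injective : Function.Injective zeta := by
  intro x y
  revert x y
  decide

theorem zeta_range : zeta.range = Subgroup.center (DihedralGroup 4) := by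
  ext g
  rw [Subgroup.mem_center_iff]
  constructor
  · rintro ⟨x, rfl⟩
    revert x
    decide
  · intro h
    have h1 : (∀ x : DihedralGroup 4, x * g = g * x) → g = zeta 1 ∨ g = zeta (Multiplicative.ofAdd 1) := by
      clear h
      revert g
      decide
    rcases h1 h with h2 | h2
    · exact ⟨1, h2.symm⟩
    · exact ⟨_, h2.symm⟩

theorem d8_pgroup : IsPGroup 2 (DihedralGroup 4) := by
  apply IsPGroup.of_card (n := 3)
  rw [nat_card]
  norm_num

/-- `MulAut (D₈ × N) ≃* D₈ × F N`. -/
theorem autD8Prod (N : Type*) [Group N] [Finite N] (hN : Subgroup.center N = ⊥) :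
    Nonempty (MulAut (DihedralGroup 4 × N) ≃* DihedralGroup 4 × F N) := by
  obtain ⟨e⟩ := autProd (N := N) zeta zeta_injective zeta_range d8_pgroup hN
  exact ⟨e.trans (MulEquiv.prodCongr dAut.symm (MulEquiv.refl _))⟩

end Pool.Agent.Helper61.AT
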