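import Mathlib

/-!
PROJECT MP_19fde8_al (S00834), block A0: automorphisms of `D₈ × N`.

`X N = Hom(N, C₂)` with the action of `MulAut N`, `F N = X N ⋊ MulAut N`.
-/

set_option autoImplicit false

namespace Pool.Agent.Helper61.AT

/-- Homomorphisms to the group of order 2. -/
abbrev X (N : Type*) [Group N] := N →* Multiplicative (ZMod 2)

/-- The action `f ↦ f ∘ α⁻¹` of `MulAut N` on `X N`. -/
def act (N : Type*) [Group N] : MulAut N →* MulAut (X N) where
  toFun α :=
    { toFun := fun f => f.comp (MulEquiv.toMonoidHom α⁻¹)
      invFun := fun f => f.comp (MulEquiv.toMonoidHom α)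
      left_inv := fun f => by
        ext n
        simp
      right_inv := fun f => by
        ext n
        simp
      map_mul' := fun f g => by
        ext n
        simp }
  map_one' := by
    ext f n
    simp
  map_mul' α β := by
    ext f n
    simp

@[simp] theorem act_apply {N : Type*} [Group N] (α : MulAut N) (f : X N) (n : N) :
    act N α f n = f (α⁻¹ n) := rfl

/-- `F N = Hom(N, C₂) ⋊ Aut N`. -/
abbrev F (N : Type*) [Group N] := X N ⋊[act N] MulAut N

end Pool.Agent.Helper61.AT
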