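import Mathlib

/-!
PROJECT MP_19fde8_al (S00834), block A2, general part: automorphisms of a semidirect product `M ⋊[φ] H` with `M`
abelian and characteristic: `MulAut (M ⋊ H) ≃* Z1 φ ⋊ Comp φ`, where `Z1 φ` are the crossed homomorphisms and
`Comp φ` the compatible pairs.
-/

set_option autoImplicit false

namespace Pool.Agent.Helper61.AT

variable {M H : Type*} [CommGroup M] [Group H]

/-- Crossed homomorphisms `f (x y) = f x · φ x (f y)`. -/
def Z1 (φ : H →* MulAut M) : Subgroup (H → M) where
  carrier := {f | ∀ x y, f (x * y) = f x * φ x (f y)}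
  one_mem' := fun x y => by simp
  mul_mem' := fun {f g} hf hg x y => by
    simp only [Pi.mul_apply, hf x y, hg x y, map_mul]
    exact mul_mul_mul_comm _ _ _ _
  inv_mem' := fun {f} hf x y => by
    simp only [Pi.inv_apply, hf x y, map_inv]
    rw [mul_inv]

theorem z1_mul {φ : H →* MulAut M} (f : Z1 φ) (x y : H) : f.1 (x * y) = f.1 x * φ x (f.1 y) := f.2 x y

theorem z1_one {φ : H →* MulAut M} (f : Z1 φ) : f.1 1 = 1 := by
  have h := z1_mul f 1 1
  rw [one_mul, map_one, MulAut.one_apply] at h
  exact left_eq_mul.mp h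

/-- Compatible pairs. -/
def Comp (φ : H →* MulAut M) : Subgroup (MulAut M × MulAut H) where
  carrier := {p | ∀ h m, p.1 (φ h m) = φ (p.2 h) (p.1 m)}
  one_mem' := fun h m => by simp
  mul_mem' := fun {p q} hp hq h m => by
    simp only [Prod.fst_mul, Prod.snd_mul, MulAut.mul_apply]
    rw [hq, hp]
  inv_mem' := fun {p} hp h m => by
    have h1 := hp (p.2⁻¹ h) (p.1⁻¹ m)
    simp only [MulAut.apply_inv_self] at h1
    simp only [Prod.fst_inv, Prod.snd_inv]
    rw [← h1, MulAut.inv_apply_self]

theorem comp_comm {φ : H →* MulAut M} (p : Comp φ) (h : H) (m : M) :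
    p.1.1 (φ h m) = φ (p.1.2 h) (p.1.1 m) := p.2 h m

/-- The action of compatible pairs on crossed homomorphisms: `(g, α) • f = g ∘ f ∘ α⁻¹`. -/
def compAct (φ : H →* MulAut M) : Comp φ →* MulAut (Z1 φ) where
  toFun p :=
    { toFun := fun f => ⟨fun x => p.1.1 (f.1 (p.1.2⁻¹ x)), fun x y => by
        simp only [map_mul]
        rw [z1_mul f, map_mul, comp_comm p, MulAut.apply_inv_self]⟩
      invFun := fun f => ⟨fun x => p.1.1⁻¹ (f.1 (p.1.2 x)), fun x y => by
        simp only [map_mul]
        rw [z1_mul f, map_mul]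
        congr 1
        have h := comp_comm p x (p.1.1⁻¹ (f.1 (p.1.2 y)))
        rw [MulAut.apply_inv_self] at h
        rw [← h, MulAut.inv_apply_self]⟩
      left_inv := fun f => by
        ext x
        simp
      right_inv := fun f => by
        ext x
        simp
      map_mul' := fun f g => by
        ext x
        simp }
  map_one' := by
    ext f x
    simp
  map_mul' p q := by
    ext f x
    simp [mul_inv_rev]

@[simp] theorem compAct_apply (φ : H →* MulAut M) (p : Comp φ) (f : Z1 φ) (x : H) :
    (compAct φ p f).1 x = p.1.1 (f.1 (p.1.2⁻¹ x)) := rfl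

/-- The endomorphism of `M ⋊ H` given by `(f, (g, α))`: `(m, h) ↦ (g m · f (α h), α h)`. -/
def sm (φ : H →* MulAut M) (x : Z1 φ ⋊[compAct φ] Comp φ) : M ⋊[φ] H →* M ⋊[φ] H where
  toFun p := ⟨x.right.1.1 p.left * x.left.1 (x.right.1.2 p.right), x.right.1.2 p.right⟩
  map_one' := by
    ext
    · simp [z1_one]
    · simp
  map_mul' p q := by
    ext
    · simp only [SemidirectProduct.mul_left, SemidirectProduct.mul_right, map_mul]
      rw [comp_comm x.right, z1_mul x.left]
      exact mul_mul_mul_comm _ _ _ _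
    · simp

@[simp] theorem sm_left (φ : H →* MulAut M) (x : Z1 φ ⋊[compAct φ] Comp φ) (p : M ⋊[φ] H) :
    (sm φ x p).left = x.right.1.1 p.left * x.left.1 (x.right.1.2 p.right) := rfl

@[simp] theorem sm_right (φ : H →* MulAut M) (x : Z1 φ ⋊[compAct φ] Comp φ) (p : M ⋊[φ] H) :
    (sm φ x p).right = x.right.1.2 p.right := rfl

theorem sm_mul (φ : H →* MulAut M) (x y : Z1 φ ⋊[compAct φ] Comp φ) (p : M ⋊[φ] H) :
    sm φ (x * y) p = sm φ x (sm φ y p) := by
  ext
  · simp only [sm_left, sm_right, SemidirectProduct.mul_left, SemidirectProduct.mul_right, Subgroup.coe_mul,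
      Prod.fst_mul, Prod.snd_mul, MulAut.mul_apply, Pi.mul_apply, compAct_apply, MulAut.inv_apply_self, map_mul]
    rw [mul_comm (x.left.1 _), mul_assoc]
  · simp

theorem sm_one (φ : H →* MulAut M) (p : M ⋊[φ] H) : sm φ 1 p = p := by
  ext <;> simp

/-- `Z1 φ ⋊ Comp φ →* MulAut (M ⋊ H)`. -/
def sa (φ : H →* MulAut M) : (Z1 φ ⋊[compAct φ] Comp φ) →* MulAut (M ⋊[φ] H) where
  toFun x :=
    { toFun := sm φ x
      invFun := sm φ x⁻¹
      left_inv := fun p => by rw [← sm_mul, inv_mul_cancel, sm_one]
      right_inv := fun p => by rw [← sm_mul, mul_inv_cancel, sm_one]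
      map_mul' := map_mul _ }
  map_one' := by
    ext p : 1
    exact sm_one φ p
  map_mul' x y := by
    ext p : 1
    exact sm_mul φ x y p

theorem sa_apply (φ : H →* MulAut M) (x : Z1 φ ⋊[compAct φ] Comp φ) (p : M ⋊[φ] H) :
    sa φ x p = ⟨x.right.1.1 p.left * x.left.1 (x.right.1.2 p.right), x.right.1.2 p.right⟩ := rfl

theorem sa_injective (φ : H →* MulAut M) : Function.Injective (sa φ) := by
  rw [injective_iff_map_eq_one]
  intro x hx
  have h : ∀ p : M ⋊[φ] H, (⟨x.right.1.1 p.left * x.left.1 (x.right.1.2 p.right), x.right.1.2 p.right⟩ :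
      M ⋊[φ] H) = p := by
    intro p
    rw [← sa_apply, hx]
    rfl
  have h2 : x.right.1.2 = 1 := by
    ext n
    exact congrArg SemidirectProduct.right (h ⟨1, n⟩)
  have h1 : x.right.1.1 = 1 := by
    ext m
    have := congrArg SemidirectProduct.left (h ⟨m, 1⟩)
    simp only [map_one, z1_one, mul_one] at this
    exact this
  have h3 : x.left = 1 := by
    ext n
    have := congrArg SemidirectProduct.left (h ⟨1, n⟩)
    simp only [h2, map_one, one_mul, MulAut.one_apply] at this
    simpa using this
  refine SemidirectProduct.ext h3 (Subtype.ext (Prod.ext h1 h2))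

/-- Every automorphism that maps `M` onto itself comes from a triple. -/
theorem sa_range (φ : H →* MulAut M) (θ : MulAut (M ⋊[φ] H))
    (h1 : ∀ m : M, (θ (SemidirectProduct.inl m)).right = 1)
    (h2 : ∀ m : M, (θ⁻¹ (SemidirectProduct.inl m)).right = 1) : θ ∈ (sa φ).range := by
  -- the restriction to `M`
  have e1 : ∀ m : M, θ (SemidirectProduct.inl m) = SemidirectProduct.inl (θ (SemidirectProduct.inl m)).left :=
    fun m => SemidirectProduct.ext (by simp) (by rw [h1 m]; simp)
  have e2 : ∀ m : M, θ⁻¹ (SemidirectProduct.inl m) =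
      SemidirectProduct.inl (θ⁻¹ (SemidirectProduct.inl m)).left :=
    fun m => SemidirectProduct.ext (by simp) (by rw [h2 m]; simp)
  let g : MulAut M :=
    { toFun := fun m => (θ (SemidirectProduct.inl m)).left
      invFun := fun m => (θ⁻¹ (SemidirectProduct.inl m)).left
      left_inv := fun m => by
        simp only [← e1, MulAut.inv_apply_self, SemidirectProduct.left_inl]
      right_inv := fun m => by
        simp only [← e2, MulAut.apply_inv_self, SemidirectProduct.left_inl]
      map_mul' := fun a b => by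
        rw [map_mul, map_mul, SemidirectProduct.mul_left, h1 a]
        simp }
  have hg : ∀ m, θ (SemidirectProduct.inl m) = SemidirectProduct.inl (g m) := e1
  -- the induced map on `H`
  have e3 : ∀ p : M ⋊[φ] H, (θ p).right = (θ (SemidirectProduct.inr p.right)).right := by
    intro p
    conv_lhs => rw [← SemidirectProduct.inl_left_mul_inr_right p]
    rw [map_mul, SemidirectProduct.mul_right, h1, one_mul]
  have e4 : ∀ p : M ⋊[φ] H, (θ⁻¹ p).right = (θ⁻¹ (SemidirectProduct.inr p.right)).right := by
    intro p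
    conv_lhs => rw [← SemidirectProduct.inl_left_mul_inr_right p]
    rw [map_mul, SemidirectProduct.mul_right, h2, one_mul]
  let α : MulAut H :=
    { toFun := fun h => (θ (SemidirectProduct.inr h)).right
      invFun := fun h => (θ⁻¹ (SemidirectProduct.inr h)).right
      left_inv := fun h => by
        show (θ⁻¹ (SemidirectProduct.inr (θ (SemidirectProduct.inr h)).right)).right = h
        rw [← e4, MulAut.inv_apply_self, SemidirectProduct.right_inr]
      right_inv := fun h => by
        show (θ (SemidirectProduct.inr (θ⁻¹ (SemidirectProduct.inr h)).right)).right = h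
        rw [← e3, MulAut.apply_inv_self, SemidirectProduct.right_inr]
      map_mul' := fun a b => by
        rw [map_mul, map_mul, SemidirectProduct.mul_right] }
  have hα : ∀ h, (θ (SemidirectProduct.inr h)).right = α h := fun h => rfl
  have hα' : ∀ h, (θ⁻¹ (SemidirectProduct.inr h)).right = α⁻¹ h := fun h => rfl
  -- the crossed homomorphism
  let f : H → M := fun h => (θ (SemidirectProduct.inr (α⁻¹ h))).left
  have hf : ∀ h, θ (SemidirectProduct.inr h) = ⟨f (α h), α h⟩ := by
    intro h
    refine SemidirectProduct.ext ?_ (hα h)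
    show _ = (θ (SemidirectProduct.inr (α⁻¹ (α h)))).left
    rw [MulAut.inv_apply_self]
  have hfz : f ∈ Z1 φ := by
    intro x y
    have h3 := hf (α⁻¹ x * α⁻¹ y)
    rw [map_mul, map_mul, hf, hf, map_mul] at h3
    simp only [MulAut.apply_inv_self] at h3
    have h4 := congrArg SemidirectProduct.left h3
    simp only [SemidirectProduct.mul_left] at h4
    exact h4.symm
  have hcomp : (g, α) ∈ Comp φ := by
    intro h m
    have h3 : (SemidirectProduct.inl (φ h m) : M ⋊[φ] H) * SemidirectProduct.inr h =
        SemidirectProduct.inr h * SemidirectProduct.inl m := by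
      rw [SemidirectProduct.inl_aut h m, mul_assoc, ← map_mul, inv_mul_cancel, map_one, mul_one]
    have h6 := congrArg θ h3
    rw [map_mul, map_mul, hg, hg, hf] at h6
    have h7 := congrArg SemidirectProduct.left h6
    simp only [SemidirectProduct.mul_left, SemidirectProduct.left_inl, SemidirectProduct.right_inl, map_one,
      MulAut.one_apply] at h7
    rw [mul_comm] at h7
    exact mul_left_cancel h7
  refine ⟨⟨⟨f, hfz⟩, ⟨(g, α), hcomp⟩⟩, ?_⟩
  ext p : 1
  rw [sa_apply]
  conv_rhs => rw [← SemidirectProduct.inl_left_mul_inr_right p, map_mul, hg, hf]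
  ext
  · simp
  · simp

/-- `MulAut (M ⋊ H) ≃* Z1 φ ⋊ Comp φ` if `M` is characteristic. -/
theorem autSemi (φ : H →* MulAut M)
    (hchar : ∀ (θ : MulAut (M ⋊[φ] H)) (m : M), (θ (SemidirectProduct.inl m)).right = 1) :
    Nonempty (MulAut (M ⋊[φ] H) ≃* (Z1 φ ⋊[compAct φ] Comp φ)) :=
  ⟨(MulEquiv.ofBijective (sa φ) ⟨sa_injective φ, fun θ => by
    have := sa_range φ θ (hchar θ) (hchar θ⁻¹)
    exact this⟩).symm⟩

end Pool.Agent.Helper61.AT
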