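import Pool.Agent.Helper43.QN.F
import Pool.Agent.Helper61.AT.Semi

/-!
PROJECT MP_19fde8_al (S00834), block A2, general part: `F (M ⋊ H)` for `M` abelian and characteristic and `H` without
characters to `C₂`: `F (M ⋊ H) ≃* (InvX φ × Z1 φ) ⋊ Comp φ`, where `InvX φ` are the `H`-invariant characters of `M`.
-/

set_option autoImplicit false

namespace Pool.Agent.Helper61.AT

open QN43

variable {M H : Type} [CommGroup M] [Group H]

/-- The `H`-invariant characters of `M`. -/
def InvX (φ : H →* MulAut M) : Subgroup (M →* C2) where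
  carrier := {χ | ∀ h m, χ (φ h m) = χ m}
  one_mem' := fun h m => by simp
  mul_mem' := fun {f g} hf hg h m => by
    simp only [MonoidHom.mul_apply, hf h m, hg h m]
  inv_mem' := fun {f} hf h m => by
    simp only [MonoidHom.inv_apply, hf h m]

theorem invX_apply {φ : H →* MulAut M} (χ : InvX φ) (h : H) (m : M) : χ.1 (φ h m) = χ.1 m := χ.2 h m

/-- Compatible pairs act on the invariant characters by `χ ↦ χ ∘ g⁻¹`. -/
def actX (φ : H →* MulAut M) : Comp φ →* MulAut (InvX φ) where
  toFun p :=
    { toFun := fun χ => ⟨χ.1.comp (MulEquiv.toMonoidHom p.1.1⁻¹), fun h m => by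
        simp only [MonoidHom.comp_apply, MulEquiv.coe_toMonoidHom]
        have h1 := comp_comm p⁻¹ h m
        simp only [Subgroup.coe_inv, Prod.fst_inv, Prod.snd_inv] at h1
        rw [h1, invX_apply χ]⟩
      invFun := fun χ => ⟨χ.1.comp (MulEquiv.toMonoidHom p.1.1), fun h m => by
        simp only [MonoidHom.comp_apply, MulEquiv.coe_toMonoidHom]
        rw [comp_comm p, invX_apply χ]⟩
      left_inv := fun χ => by
        ext m
        simp
      right_inv := fun χ => by
        ext m
        simp
      map_mul' := fun f g => by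
        ext m
        simp }
  map_one' := by
    ext f x
    simp
  map_mul' p q := by
    ext f x
    simp [mul_inv_rev]

@[simp] theorem actX_apply (φ : H →* MulAut M) (p : Comp φ) (χ : InvX φ) (m : M) :
    (actX φ p χ).1 m = χ.1 (p.1.1⁻¹ m) := rfl

/-- The action on the product. -/
def actXZ (φ : H →* MulAut M) : Comp φ →* MulAut (InvX φ × Z1 φ) where
  toFun p := MulEquiv.prodCongr (actX φ p) (compAct φ p)
  map_one' := by
    rw [map_one, map_one]
    rfl
  map_mul' p q := by
    rw [map_mul, map_mul]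
    rfl

@[simp] theorem actXZ_apply (φ : H →* MulAut M) (p : Comp φ) (x : InvX φ × Z1 φ) :
    actXZ φ p x = (actX φ p x.1, compAct φ p x.2) := rfl

/-- Extension of an invariant character to `M ⋊ H`. -/
def extX (φ : H →* MulAut M) : InvX φ →* X (M ⋊[φ] H) where
  toFun χ :=
    { toFun := fun p => χ.1 p.left
      map_one' := by simp
      map_mul' := fun p q => by
        rw [SemidirectProduct.mul_left, map_mul, invX_apply χ] }
  map_one' := by
    ext p : 1
    rfl
  map_mul' χ η := by
    ext p : 1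
    rfl

@[simp] theorem extX_apply (φ : H →* MulAut M) (χ : InvX φ) (p : M ⋊[φ] H) : extX φ χ p = χ.1 p.left := rfl

theorem X_ext (φ : H →* MulAut M) (hH : ∀ f : H →* C2, f = 1) {χ η : X (M ⋊[φ] H)}
    (h : ∀ m, χ (SemidirectProduct.inl m) = η (SemidirectProduct.inl m)) : χ = η := by
  ext p : 1
  rw [← SemidirectProduct.inl_left_mul_inr_right p, map_mul, map_mul, h]
  congr 1
  have h1 := DFunLike.congr_fun (hH (χ.comp SemidirectProduct.inr)) p.right
  have h2 := DFunLike.congr_fun (hH (η.comp SemidirectProduct.inr)) p.right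
  exact h1.trans h2.symm

theorem act_ext (φ : H →* MulAut M) (hH : ∀ f : H →* C2, f = 1) (x : Z1 φ ⋊[compAct φ] Comp φ) (χ : InvX φ) :
    act (M ⋊[φ] H) (sa φ x) (extX φ χ) = extX φ (actX φ x.right χ) := by
  apply X_ext φ hH
  intro m
  rw [act_apply, extX_apply, extX_apply, actX_apply]
  have h1 : (sa φ x)⁻¹ (SemidirectProduct.inl m) = SemidirectProduct.inl (x.right.1.1⁻¹ m) := by
    have h2 : sa φ x (SemidirectProduct.inl (x.right.1.1⁻¹ m)) = SemidirectProduct.inl m := by
      rw [sa_apply]
      ext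
      · simp [z1_one]
      · simp
    rw [← h2, MulAut.inv_apply_self]
  rw [h1]
  simp

/-- The homomorphism `(InvX φ × Z1 φ) ⋊ Comp φ →* F (M ⋊ H)`. -/
def fs (φ : H →* MulAut M) (hH : ∀ f : H →* C2, f = 1) :
    (InvX φ × Z1 φ) ⋊[actXZ φ] Comp φ →* F (M ⋊[φ] H) where
  toFun x := ⟨extX φ x.left.1, sa φ ⟨x.left.2, x.right⟩⟩
  map_one' := by
    refine SemidirectProduct.ext ?_ ?_
    · simp
    · exact map_one (sa φ)
  map_mul' x y := by
    refine SemidirectProduct.ext ?_ ?_
    · simp only [SemidirectProduct.mul_left, actXZ_apply, Prod.fst_mul, map_mul]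
      rw [act_ext φ hH]
    · simp only [SemidirectProduct.mul_right, SemidirectProduct.mul_left, actXZ_apply, Prod.snd_mul]
      rw [← map_mul]
      rfl

theorem fs_bijective (φ : H →* MulAut M) (hH : ∀ f : H →* C2, f = 1)
    (hchar : ∀ (θ : MulAut (M ⋊[φ] H)) (m : M), (θ (SemidirectProduct.inl m)).right = 1) :
    Function.Bijective (fs φ hH) := by
  constructor
  · intro x y hxy
    have h1 : extX φ x.left.1 = extX φ y.left.1 := congrArg SemidirectProduct.left hxy
    have h2 : sa φ ⟨x.left.2, x.right⟩ = sa φ ⟨y.left.2, y.right⟩ := congrArg SemidirectProduct.right hxy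
    have h3 := sa_injective φ h2
    have h4 : x.left.1 = y.left.1 := by
      ext m
      have := DFunLike.congr_fun h1 (SemidirectProduct.inl m)
      simpa using this
    have h5 := SemidirectProduct.ext_iff.mp h3
    exact SemidirectProduct.ext (Prod.ext h4 h5.1) h5.2
  · intro y
    obtain ⟨z, hz⟩ := sa_range φ y.right (hchar _) (hchar _)
    let χ : InvX φ := ⟨y.left.comp SemidirectProduct.inl, fun h m => by
      simp only [MonoidHom.comp_apply]
      rw [SemidirectProduct.inl_aut, map_mul, map_mul, map_inv, map_inv]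
      exact mul_inv_cancel_comm _ _⟩
    refine ⟨⟨(χ, z.left), z.right⟩, ?_⟩
    refine SemidirectProduct.ext ?_ ?_
    · apply X_ext φ hH
      intro m
      show extX φ χ _ = _
      rw [extX_apply]
      rfl
    · exact hz

/-- `F (M ⋊ H) ≃* (InvX φ × Z1 φ) ⋊ Comp φ`. -/
theorem F_semi (φ : H →* MulAut M) (hH : ∀ f : H →* C2, f = 1)
    (hchar : ∀ (θ : MulAut (M ⋊[φ] H)) (m : M), (θ (SemidirectProduct.inl m)).right = 1) :
    Nonempty (F (M ⋊[φ] H) ≃* ((InvX φ × Z1 φ) ⋊[actXZ φ] Comp φ)) :=
  ⟨(MulEquiv.ofBijective (fs φ hH) (fs_bijective φ hH hchar)).symm⟩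

end Pool.Agent.Helper61.AT
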