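import Pool.Agent.Helper61.AT.Defs

/-!
PROJECT MP_19fde8_al (S00834), block A0: `MulAut (A × N) ≃* MulAut A × F N` for a finite 2-group `A` with centre of
order 2 (given as the range of an injective `ζ : C₂ →* A`) and a finite group `N` with trivial centre.
-/

set_option autoImplicit false

namespace Pool.Agent.Helper61.AT

variable {A N : Type*} [Group A] [Group N]

/-- An automorphism fixes the centre of order two pointwise. -/
theorem aut_zeta (ζ : Multiplicative (ZMod 2) →* A) (hζ : Function.Injective ζ)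
    (hr : ζ.range = Subgroup.center A) (α : MulAut A) (x : Multiplicative (ZMod 2)) : α (ζ x) = ζ x := by
  have h2 : ∀ y : Multiplicative (ZMod 2), y = 1 ∨ y = Multiplicative.ofAdd 1 := by decide
  rcases h2 x with rfl | rfl
  · simp
  · have hc : α (ζ (Multiplicative.ofAdd 1)) ∈ Subgroup.center A := by
      have h0 : ζ (Multiplicative.ofAdd 1) ∈ Subgroup.center A := by
        rw [← hr]
        exact ⟨_, rfl⟩
      rw [Subgroup.mem_center_iff] at h0 ⊢
      intro g
      have h3 := congrArg α (h0 (α⁻¹ g))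
      simpa using h3
    rw [← hr] at hc
    obtain ⟨y, hy⟩ := hc
    rcases h2 y with rfl | rfl
    · exfalso
      rw [map_one] at hy
      have h4 : ζ (Multiplicative.ofAdd 1) = 1 := by
        have := hy.symm
        simpa using this
      have h5 := hζ (h4.trans (map_one ζ).symm)
      exact absurd h5 (by decide)
    · exact hy.symm

/-- The endomorphism of `A × N` given by `(α, β, δ)`. -/
def pm (ζ : Multiplicative (ZMod 2) →* A) (hr : ζ.range = Subgroup.center A) (x : MulAut A × F N) :
    A × N →* A × N where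
  toFun p := (x.1 p.1 * ζ (x.2.left (x.2.right p.2)), x.2.right p.2)
  map_one' := by simp
  map_mul' p q := by
    have hc : ζ (x.2.left (x.2.right p.2)) ∈ Subgroup.center A := by
      rw [← hr]
      exact ⟨_, rfl⟩
    rw [Subgroup.mem_center_iff] at hc
    ext
    · simp only [Prod.fst_mul, Prod.snd_mul, map_mul]
      have := hc (x.1 q.1)
      simp only [mul_assoc]
      rw [← mul_assoc (ζ _) (x.1 q.1), ← this]
      simp only [mul_assoc]
    · simp

theorem pm_mul (ζ : Multiplicative (ZMod 2) →* A) (hζ : Function.Injective ζ)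
    (hr : ζ.range = Subgroup.center A) (x y : MulAut A × F N) (p : A × N) :
    pm ζ hr (x * y) p = pm ζ hr x (pm ζ hr y p) := by
  have h1 := aut_zeta ζ hζ hr x.1 (y.2.left (y.2.right p.2))
  ext
  · simp only [pm, MonoidHom.coe_mk, OneHom.coe_mk, Prod.fst_mul, Prod.snd_mul, MulAut.mul_apply,
      SemidirectProduct.mul_left, SemidirectProduct.mul_right, MonoidHom.mul_apply, act_apply, map_mul, h1]
    have h2 : (x.2.right)⁻¹ (x.2.right (y.2.right p.2)) = y.2.right p.2 := by
      simp
    rw [h2]
    have hc : ζ (y.2.left (y.2.right p.2)) * ζ (x.2.left (x.2.right (y.2.right p.2))) =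
        ζ (x.2.left (x.2.right (y.2.right p.2))) * ζ (y.2.left (y.2.right p.2)) := by
      rw [← map_mul, ← map_mul, mul_comm]
    rw [mul_assoc, hc]
  · simp only [pm, MonoidHom.coe_mk, OneHom.coe_mk, Prod.snd_mul,
      SemidirectProduct.mul_right, MulAut.mul_apply]

theorem pm_one (ζ : Multiplicative (ZMod 2) →* A)
    (hr : ζ.range = Subgroup.center A) (p : A × N) : pm ζ hr (1 : MulAut A × F N) p = p := by
  ext <;> simp [pm]

/-- The homomorphism to `MulAut (A × N)`. -/
def pa (ζ : Multiplicative (ZMod 2) →* A) (hζ : Function.Injective ζ)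
    (hr : ζ.range = Subgroup.center A) : MulAut A × F N →* MulAut (A × N) where
  toFun x :=
    { toFun := pm ζ hr x
      invFun := pm ζ hr x⁻¹
      left_inv := fun p => by rw [← pm_mul ζ hζ hr, inv_mul_cancel, pm_one]
      right_inv := fun p => by rw [← pm_mul ζ hζ hr, mul_inv_cancel, pm_one]
      map_mul' := map_mul _ }
  map_one' := by
    ext p : 1
    exact pm_one ζ hr p
  map_mul' x y := by
    ext p : 1
    exact pm_mul ζ hζ hr x y p

@[simp] theorem pa_apply (ζ : Multiplicative (ZMod 2) →* A) (hζ : Function.Injective ζ)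
    (hr : ζ.range = Subgroup.center A) (x : MulAut A × F N) (p : A × N) :
    pa ζ hζ hr x p = (x.1 p.1 * ζ (x.2.left (x.2.right p.2)), x.2.right p.2) := rfl

theorem pa_injective (ζ : Multiplicative (ZMod 2) →* A) (hζ : Function.Injective ζ)
    (hr : ζ.range = Subgroup.center A) : Function.Injective (pa (N := N) ζ hζ hr) := by
  rw [injective_iff_map_eq_one]
  intro x hx
  have h : ∀ p : A × N, (x.1 p.1 * ζ (x.2.left (x.2.right p.2)), x.2.right p.2) = p := by
    intro p
    have := congrArg (fun f : MulAut (A × N) => f p) hx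
    simpa using this
  have h2 : x.2.right = 1 := by
    ext n
    have := congrArg Prod.snd (h (1, n))
    simpa using this
  have h1 : x.1 = 1 := by
    ext a
    have := congrArg Prod.fst (h (a, 1))
    simpa using this
  have h3 : x.2.left = 1 := by
    ext n : 1
    have := congrArg Prod.fst (h (1, n))
    simp only [h2, map_one, MulAut.one_apply, one_mul] at this
    exact hζ (this.trans (map_one ζ).symm)
  ext1
  · exact h1
  · exact SemidirectProduct.ext h3 h2

/-- The image of `A` in `N` under an automorphism of `A × N` is trivial. -/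
theorem snd_inl (hA : IsPGroup 2 A) [Finite A] (hN : Subgroup.center N = ⊥)
    (φ : MulAut (A × N)) (a : A) : (φ (a, 1)).2 = 1 := by
  classical
  set γ : A →* N := (MonoidHom.snd A N).comp ((MulEquiv.toMonoidHom φ).comp (MonoidHom.inl A N)) with hγ
  have hγa : ∀ a, γ a = (φ (a, 1)).2 := fun a => rfl
  by_contra hne
  have hP : IsPGroup 2 γ.range := hA.of_surjective γ.rangeRestrict γ.rangeRestrict_surjective
  have : Finite γ.range := Finite.of_surjective γ.rangeRestrict γ.rangeRestrict_surjective
  have : Nontrivial γ.range := by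
    rw [Subgroup.nontrivial_iff_exists_ne_one]
    exact ⟨γ a, ⟨a, rfl⟩, hne⟩
  have := hP.center_nontrivial
  obtain ⟨⟨z, hz⟩, hz1⟩ := exists_ne (1 : Subgroup.center γ.range)
  rw [Subgroup.mem_center_iff] at hz
  -- every element of N is a product
  have hcen : (z : N) ∈ Subgroup.center N := by
    rw [Subgroup.mem_center_iff]
    intro n
    obtain ⟨⟨a', n'⟩, hp⟩ := φ.surjective ((1 : A), n)
    have hsplit : ((a', n') : A × N) = (a', 1) * (1, n') := by simp
    rw [hsplit, map_mul] at hp
    have hn : n = (φ (a', 1)).2 * (φ (1, n')).2 := by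
      rw [← Prod.snd_mul, hp]
    obtain ⟨b, hb⟩ := z.2
    have h1 : (φ (a', 1)).2 * (z : N) = (z : N) * (φ (a', 1)).2 := by
      have h3 := congrArg Subtype.val (hz ⟨γ a', ⟨a', rfl⟩⟩)
      have h4 : γ a' * (z : N) = (z : N) * γ a' := by simpa using h3
      exact h4
    have h2 : (φ (1, n')).2 * (z : N) = (z : N) * (φ (1, n')).2 := by
      rw [← hb, hγa, ← Prod.snd_mul, ← Prod.snd_mul, ← map_mul, ← map_mul]
      simp
    rw [hn, mul_assoc, h2, ← mul_assoc, h1, mul_assoc]
  rw [hN, Subgroup.mem_bot] at hcen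
  apply hz1
  ext
  exact hcen

theorem pa_surjective (ζ : Multiplicative (ZMod 2) →* A) (hζ : Function.Injective ζ)
    (hr : ζ.range = Subgroup.center A) (hA : IsPGroup 2 A) [Finite A] [Finite N]
    (hN : Subgroup.center N = ⊥) : Function.Surjective (pa (N := N) ζ hζ hr) := by
  classical
  intro φ
  have hsnd : ∀ a, (φ (a, 1)).2 = 1 := snd_inl hA hN φ
  -- α
  set α₀ : A →* A := (MonoidHom.fst A N).comp ((MulEquiv.toMonoidHom φ).comp (MonoidHom.inl A N)) with hα₀
  have hα₀a : ∀ a, φ (a, 1) = (α₀ a, 1) := fun a => Prod.ext rfl (hsnd a)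
  have hαinj : Function.Injective α₀ := by
    rw [injective_iff_map_eq_one]
    intro a ha
    have := hα₀a a
    rw [ha] at this
    have h2 : φ (a, 1) = φ (1, 1) := by
      rw [this, ← Prod.one_eq_mk, map_one]
    have h3 := φ.injective h2
    exact congrArg Prod.fst h3
  have hαbij : Function.Bijective α₀ := Finite.injective_iff_bijective.mp hαinj
  set α : MulAut A := MulEquiv.ofBijective α₀ hαbij with hα
  have hαa : ∀ a, φ (a, 1) = (α a, 1) := hα₀a
  -- δ
  set δ₀ : N →* N := (MonoidHom.snd A N).comp ((MulEquiv.toMonoidHom φ).comp (MonoidHom.inr A N)) with hδ₀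
  set b₀ : N →* A := (MonoidHom.fst A N).comp ((MulEquiv.toMonoidHom φ).comp (MonoidHom.inr A N)) with hb₀
  have hn : ∀ n, φ (1, n) = (b₀ n, δ₀ n) := fun n => Prod.ext rfl rfl
  have hδinj : Function.Injective δ₀ := by
    rw [injective_iff_map_eq_one]
    intro n h1
    have h2 := hn n
    rw [h1] at h2
    have h3 : φ (1, n) = φ (α⁻¹ (b₀ n), 1) := by
      rw [h2, hαa]
      simp
    have h4 := φ.injective h3
    exact congrArg Prod.snd h4
  have hδbij : Function.Bijective δ₀ := Finite.injective_iff_bijective.mp hδinj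
  set δ : MulAut N := MulEquiv.ofBijective δ₀ hδbij with hδ
  have hδa : ∀ n, δ n = δ₀ n := fun n => rfl
  have hbc : ∀ n, b₀ n ∈ ζ.range := by
    intro n
    rw [hr, Subgroup.mem_center_iff]
    intro g
    have h1 : φ (α⁻¹ g, 1) * φ (1, n) = φ (1, n) * φ (α⁻¹ g, 1) := by
      rw [← map_mul, ← map_mul]
      simp
    rw [hαa, hn] at h1
    have := congrArg Prod.fst h1
    simpa using this
  set eζ := MonoidHom.ofInjective hζ with heζ
  set β₀ : X N := (eζ.symm.toMonoidHom).comp (b₀.codRestrict ζ.range hbc) with hβ₀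
  have hβ : ∀ n, ζ (β₀ n) = b₀ n := by
    intro n
    have h1 : eζ (β₀ n) = (⟨b₀ n, hbc n⟩ : ζ.range) := by
      simp only [hβ₀, MonoidHom.comp_apply]
      exact eζ.apply_symm_apply _
    have h2 := congrArg Subtype.val h1
    rw [heζ, MonoidHom.ofInjective_apply] at h2
    exact h2
  refine ⟨(α, ⟨β₀.comp (MulEquiv.toMonoidHom δ⁻¹), δ⟩), ?_⟩
  ext p : 1
  obtain ⟨a, n⟩ := p
  have hsplit : ((a, n) : A × N) = (a, 1) * (1, n) := by simp
  rw [pa_apply]
  have h1 : φ (a, n) = (α a * b₀ n, δ₀ n) := by
    rw [hsplit, map_mul, hαa, hn]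
    simp
  rw [h1]
  have h2 : (β₀.comp (MulEquiv.toMonoidHom δ⁻¹)) (δ n) = β₀ n := by
    simp
  ext
  · simp only []
    rw [h2, hβ]
  · rfl

/-- `MulAut (A × N) ≃* MulAut A × F N`. -/
theorem autProd (ζ : Multiplicative (ZMod 2) →* A) (hζ : Function.Injective ζ)
    (hr : ζ.range = Subgroup.center A) (hA : IsPGroup 2 A) [Finite A] [Finite N]
    (hN : Subgroup.center N = ⊥) : Nonempty (MulAut (A × N) ≃* MulAut A × F N) :=
  ⟨(MulEquiv.ofBijective (pa ζ hζ hr) ⟨pa_injective ζ hζ hr, pa_surjective ζ hζ hr hA hN⟩).symm⟩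

end Pool.Agent.Helper61.AT
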