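import Pool.Agent.Helper61.AT.D8

/-!
PROJECT MP_19fde8_al (S00834), block A0: final assembly. If `N 0, N 1, ...` are finite groups with trivial centre,
`N (i+1) ≅ F (N i) = Hom(N i, C₂) ⋊ Aut (N i)` and the orders are unbounded, then the automorphism tower of the finite
group `D₈ × N 0` is unbounded, which is the frozen statement S00834.
-/

set_option autoImplicit false

namespace Pool.Agent.Helper61.AT

/-- `F` respects isomorphisms. -/
theorem F_congr {N M : Type*} [Group N] [Group M] (e : N ≃* M) : Nonempty (F N ≃* F M) := by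
  let eX : X N ≃* X M :=
    { toFun := fun f => f.comp e.symm.toMonoidHom
      invFun := fun f => f.comp e.toMonoidHom
      left_inv := fun f => by ext n; simp
      right_inv := fun f => by ext n; simp
      map_mul' := fun f g => by ext n; simp }
  refine ⟨SemidirectProduct.congr eX (MulAut.congr e) ?_⟩
  intro α
  ext f n
  simp [eX, MulAut.congr]

/-- The automorphism tower of `D₈ × N 0`. -/
theorem tower_iso (N : ℕ → Type) [∀ i, Group (N i)] [∀ i, Finite (N i)]
    (hZ : ∀ i, Subgroup.center (N i) = ⊥) (e : ∀ i, Nonempty (F (N i) ≃* N (i + 1))) (i : ℕ) :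
    Nonempty (((fun H : GrpCat => GrpCat.of (MulAut H))^[i] (GrpCat.of (DihedralGroup 4 × N 0))) ≃*
      (DihedralGroup 4 × N i)) := by
  induction i with
  | zero => exact ⟨MulEquiv.refl _⟩
  | succ i ih =>
    obtain ⟨e1⟩ := ih
    obtain ⟨e2⟩ := autD8Prod (N i) (hZ i)
    obtain ⟨e3⟩ := e i
    rw [Function.iterate_succ_apply']
    exact ⟨(MulAut.congr e1).trans (e2.trans (MulEquiv.prodCongr (MulEquiv.refl _) e3))⟩

/-- FINAL ASSEMBLY: a chain of finite centreless groups with `N (i+1) ≅ F (N i)` and unbounded orders gives S00834. -/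
theorem not_bounded (N : ℕ → Type) [∀ i, Group (N i)] [∀ i, Finite (N i)]
    (hZ : ∀ i, Subgroup.center (N i) = ⊥) (e : ∀ i, Nonempty (F (N i) ≃* N (i + 1)))
    (hunb : ∀ B : ℕ, ∃ i, B < Nat.card (N i)) :
    ¬ (∃ f : ℕ → ℕ, ∀ (G : Type) [Group G] [Finite G], ∀ i : ℕ,
      Nat.card ((fun H : GrpCat => GrpCat.of (MulAut H))^[i] (GrpCat.of G)) ≤ f (Nat.card G)) := by
  rintro ⟨f, hf⟩
  obtain ⟨i, hi⟩ := hunb (f (Nat.card (DihedralGroup 4 × N 0)))
  have h1 := hf (DihedralGroup 4 × N 0) i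
  obtain ⟨e1⟩ := tower_iso N hZ e i
  rw [Nat.card_congr e1.toEquiv, Nat.card_prod, DihedralGroup.nat_card] at h1
  omega

/-- The same with a chain given in steps of two: `C (2i)`-level groups `N i`, and intermediate groups `M i`. -/
theorem not_bounded_two (N M : ℕ → Type) [∀ i, Group (N i)] [∀ i, Finite (N i)] [∀ i, Group (M i)]
    [∀ i, Finite (M i)] (hZN : ∀ i, Subgroup.center (N i) = ⊥) (hZM : ∀ i, Subgroup.center (M i) = ⊥)
    (eN : ∀ i, Nonempty (F (N i) ≃* M i)) (eM : ∀ i, Nonempty (F (M i) ≃* N (i + 1)))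
    (hunb : ∀ B : ℕ, ∃ i, B < Nat.card (N i)) :
    ¬ (∃ f : ℕ → ℕ, ∀ (G : Type) [Group G] [Finite G], ∀ i : ℕ,
      Nat.card ((fun H : GrpCat => GrpCat.of (MulAut H))^[i] (GrpCat.of G)) ≤ f (Nat.card G)) := by
  -- the interleaved chain, as a sequence in `GrpCat`
  have key : ∀ i, Nonempty (((fun H : GrpCat => GrpCat.of (MulAut H))^[2 * i]
      (GrpCat.of (DihedralGroup 4 × N 0))) ≃* (DihedralGroup 4 × N i)) := by
    intro i
    induction i with
    | zero => exact ⟨MulEquiv.refl _⟩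
    | succ i ih =>
      obtain ⟨e1⟩ := ih
      obtain ⟨e2⟩ := autD8Prod (N i) (hZN i)
      obtain ⟨e3⟩ := eN i
      obtain ⟨e4⟩ := autD8Prod (M i) (hZM i)
      obtain ⟨e5⟩ := eM i
      rw [show 2 * (i + 1) = (2 * i + 1) + 1 by ring, Function.iterate_succ_apply',
        Function.iterate_succ_apply']
      have h1 : MulAut (GrpCat.of (MulAut ((fun H : GrpCat => GrpCat.of (MulAut H))^[2 * i]
          (GrpCat.of (DihedralGroup 4 × N 0))))) ≃* MulAut (DihedralGroup 4 × M i) :=
        MulAut.congr ((MulAut.congr e1).trans (e2.trans (MulEquiv.prodCongr (MulEquiv.refl _) e3)))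
      exact ⟨h1.trans (e4.trans (MulEquiv.prodCongr (MulEquiv.refl _) e5))⟩
  rintro ⟨f, hf⟩
  obtain ⟨i, hi⟩ := hunb (f (Nat.card (DihedralGroup 4 × N 0)))
  have h1 := hf (DihedralGroup 4 × N 0) (2 * i)
  obtain ⟨e1⟩ := key i
  rw [Nat.card_congr e1.toEquiv, Nat.card_prod, DihedralGroup.nat_card] at h1
  omega

end Pool.Agent.Helper61.AT
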